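import Pool.Agent.Helper82.BR.St3

set_option autoImplicit false

namespace Pool.Agent.Helper21.BR

open scoped ComplexConjugate
open Pool.Agent.Helper82.BR

theorem hR2C : StR2C := by
  rintro S w ρ b1 b2 b3 ⟨hw, hρ, hR, hb1, hb2, hb3, h1, h2, h3, hS⟩ hρw e1 e2 e3
  have hρ1 : ρ * conj ρ = 1 := by
    rw [Complex.mul_conj, Complex.normSq_eq_norm_sq, hρ]
    norm_num
  have hρ0 : ρ ≠ 0 := by
    rintro rfl
    simp at hρ
  have h4 : ρ ^ 4 - ρ ^ 2 + 1 = 0 := by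
    have h5 : ρ ^ 4 = w ^ 2 := by rw [← hρw]; ring
    rw [h5, hw, hρw]
    ring
  have key : ∀ z : ℂ, dist z 0 = dist z b2 → z + ρ ^ 3 * conj z = b2 := by
    intro z hz
    rw [dist_zero_right, Complex.dist_eq] at hz
    have hz2 : z * conj z = (z - b2) * conj (z - b2) := by
      rw [Complex.mul_conj, Complex.mul_conj, Complex.normSq_eq_norm_sq, Complex.normSq_eq_norm_sq, hz]
    rw [map_sub] at hz2
    apply mul_left_cancel₀ hb2
    linear_combination ρ ^ 3 * hz2 + (z - b2) * h2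
  have F1 : ρ ^ 2 + 1 ≠ 0 := by
    intro h
    have h3 : (3 : ℂ) = 0 := by linear_combination h4 - (ρ ^ 2 - 2) * h
    norm_num at h3
  have F2 : 1 + ρ + ρ ^ 2 ≠ 0 := by
    intro h
    have h3 : (1 : ℂ) = 0 := by linear_combination (1 + ρ / 2 * (ρ ^ 2 - ρ - 1)) * h - ρ / 2 * h4
    norm_num at h3
  have F3 : ρ ^ 2 + ρ - 1 ≠ 0 := by
    intro h
    have h3 : (1 : ℂ) = 0 := by linear_combination (1 - (ρ / 2 + 1) * (ρ ^ 2 - ρ + 1)) * h + (ρ / 2 + 1) * h4
    norm_num at h3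
  have G1 : 1 + ρ ^ 3 ≠ b2 := by
    intro hk
    have h5 : ρ * (ρ ^ 2 + 1) = 0 := by linear_combination (1 + ρ) * hk + e2 - h4
    exact (mul_ne_zero hρ0 F1) h5
  have G2 : ρ + ρ ^ 2 ≠ b2 := by
    intro hk
    have h5 : ρ * (1 + ρ + ρ ^ 2) = 0 := by linear_combination (1 + ρ) * hk + e2
    exact (mul_ne_zero hρ0 F2) h5
  have nd : ∀ z ∈ S, ¬ dist z 0 = dist z b2 := by
    intro z hz hd
    have hk := key z hd
    rcases (hS z).1 hz with h | h | h | h | h | h | h | h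
    · rw [h, map_zero] at hk
      exact hb2 (by linear_combination -hk)
    · rw [h, map_one] at hk
      exact G1 (by linear_combination hk)
    · rw [h] at hk
      exact G2 (by linear_combination hk - ρ ^ 2 * hρ1)
    · rw [h, map_pow] at hk
      exact G2 (by linear_combination hk - ρ * (ρ * conj ρ + 1) * hρ1)
    · rw [h, map_pow] at hk
      exact G1 (by linear_combination hk - ((ρ * conj ρ) ^ 2 + ρ * conj ρ + 1) * hρ1)
    · rw [h] at hk
      have hk' : b1 * (1 + ρ ^ 2) = b2 := by linear_combination hk + ρ ^ 2 * h1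
      have h5 : ρ ^ 2 * (2 * (ρ ^ 2 + ρ - 1)) = 0 := by
        linear_combination (1 + ρ ^ 5) * (1 + ρ) * hk' - (1 + ρ ^ 2) * (1 + ρ) * e1 + (1 + ρ ^ 5) * e2 -
          ρ ^ 2 * (1 - ρ) * h4
      exact (mul_ne_zero (pow_ne_zero _ hρ0) (mul_ne_zero two_ne_zero F3)) h5
    · rw [h] at hk
      exact hb2 (by linear_combination hk + h2)
    · rw [h] at hk
      have hk' : b3 * (1 + ρ ^ 2) = ρ ^ 2 * b2 := by linear_combination ρ ^ 2 * hk + h3
      have h5 : ρ ^ 4 * (2 * (ρ ^ 2 + ρ - 1)) = 0 := by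
        linear_combination (1 + ρ ^ 5) * (1 + ρ) * hk' - (1 + ρ ^ 2) * (1 + ρ) * e3 +
          ρ ^ 2 * (1 + ρ ^ 5) * e2 - ρ ^ 4 * (1 - ρ) * h4
      exact (mul_ne_zero (pow_ne_zero _ hρ0) (mul_ne_zero two_ne_zero F3)) h5
  have h0S : (0 : ℂ) ∈ S := (hS 0).2 (Or.inl rfl)
  have hbS : b2 ∈ S := (hS b2).2 (by tauto)
  have hc := hR 0 h0S b2 hbS (Ne.symm hb2)
  rw [Finset.filter_eq_empty_iff.2 (fun z hz => nd z hz)] at hc
  simp at hc

end Pool.Agent.Helper21.BR
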